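import Pool.Agent.H534R3.NonBorel

/-!
# Topological Ramsey spaces for which the set of codes of `G_δ` Ramsey positive sets is simple

The power set of `ω` with the inclusion order and `r_n(A) = A ∩ n` is a topological Ramsey space
(Todorcevic's axioms A.1 - A.4) for which a set is Ramsey positive if and only if it contains a
finite subset of `ω`; hence the set of codes for `G_δ` Ramsey positive sets is Borel, and it is not
`Σ¹₂`-complete.  More generally, the set of codes is `Σ¹₁` for every topological Ramsey space in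
which each nonempty `[s, A]` contains a point `B` with `[s, B] = {B}`.
-/

set_option autoImplicit false

open Set MeasureTheory Topology

namespace Pool.Agent.Results.MP_b89b7d_lc.NotSigma12Complete

/-- The basic set `[s, A] = {B : s ⊑ B, B ≤ A}`. -/
def Nbhd {R AR : Type} (le : R → R → Prop) (r : ℕ → R → AR) (s : AR) (A : R) : Set R :=
  {B | (∃ n, r n B = s) ∧ le B A}

/-- `s ⊑ t` : `s = r_m(A)` and `t = r_n(A)` for some `A` and some `m ≤ n`. -/
def Init {R AR : Type} (r : ℕ → R → AR) (s t : AR) : Prop :=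
  ∃ A m n, m ≤ n ∧ r m A = s ∧ r n A = t

/-- `d` is the depth of `a` in `B` : the least `d` with `a ≤_fin r_d(B)`. -/
def IsDepth {R AR : Type} (r : ℕ → R → AR) (lefin : AR → AR → Prop) (a : AR) (B : R) (d : ℕ) :
    Prop :=
  lefin a (r d B) ∧ ∀ m < d, ¬ lefin a (r m B)

/-- Topological Ramsey spaces: Todorcevic's axioms A.1 - A.4 for `(R, ≤, r)`, where `AR` is the
countable set of finite approximations, `R` is closed in `AR ^ ω` (`AR` discrete), and `≤_fin` is
the finitization of `≤`. -/
structure RamseySpace (R AR : Type) where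
  le : R → R → Prop
  r : ℕ → R → AR
  lefin : AR → AR → Prop
  nonempty : Nonempty R
  countable : Countable AR
  r_surj : ∀ a, ∃ n A, r n A = a
  le_refl : ∀ A, le A A
  le_trans : ∀ A B C, le A B → le B C → le A C
  closed : @IsClosed (ℕ → AR) (@Pi.topologicalSpace ℕ (fun _ => AR) fun _ => ⊥)
    (range fun (A : R) (n : ℕ) => r n A)
  A1_zero : ∀ A B, r 0 A = r 0 B
  A1_ne : ∀ A B, A ≠ B → ∃ n, r n A ≠ r n B
  A1_eq : ∀ A B n m, r n A = r m B → n = m ∧ ∀ k < n, r k A = r k B
  lefin_refl : ∀ a, lefin a a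
  lefin_trans : ∀ a b c, lefin a b → lefin b c → lefin a c
  A2_finite : ∀ b, {a | lefin a b}.Finite
  A2_le : ∀ A B, le A B ↔ ∀ n, ∃ m, lefin (r n A) (r m B)
  A2_init : ∀ a b c, Init r a b → lefin b c → ∃ d, Init r d c ∧ lefin a d
  A3_one : ∀ a B d, IsDepth r lefin a B d → ∀ A ∈ Nbhd le r (r d B) B, (Nbhd le r a A).Nonempty
  A3_two : ∀ a A B, le A B → (Nbhd le r a A).Nonempty → ∃ d, IsDepth r lefin a B d ∧
    ∃ A' ∈ Nbhd le r (r d B) B, (Nbhd le r a A').Nonempty ∧ Nbhd le r a A' ⊆ Nbhd le r a A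
  A4 : ∀ a B d, IsDepth r lefin a B d → ∀ O : Set AR, ∃ A ∈ Nbhd le r (r d B) B,
    (∀ C ∈ Nbhd le r a A, ∀ k, r k C = a → r (k + 1) C ∈ O) ∨
    (∀ C ∈ Nbhd le r a A, ∀ k, r k C = a → r (k + 1) C ∉ O)

variable {R AR : Type}

/-- `X` is Ramsey null: every nonempty `[s, A]` contains some `B` with `[s, B] ∩ X = ∅`. -/
def RamseyNull (T : RamseySpace R AR) (X : Set R) : Prop :=
  ∀ s A, (Nbhd T.le T.r s A).Nonempty → ∃ B ∈ Nbhd T.le T.r s A, Nbhd T.le T.r s B ∩ X = ∅

/-- The subset `X_n` of `AR` coded by `x ∈ 2^ω`. -/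
def codeSet (e : ℕ × AR → ℕ) (x : ℕ → Bool) (n : ℕ) : Set AR := {a | x (e (n, a)) = true}

/-- `⊑`-trees. -/
def IsTree (T : RamseySpace R AR) (X : Set AR) : Prop := ∀ s t, Init T.r s t → t ∈ X → s ∈ X

/-- The `G_δ` set `G_x` coded by `x`: if all the `X_n` are trees it is the complement of the union
of the sets `[X_n] = {A : r_k(A) ∈ X_n for all k}`, and otherwise it is empty. -/
def G (T : RamseySpace R AR) (e : ℕ × AR → ℕ) (x : ℕ → Bool) : Set R :=
  {A | (∀ n, IsTree T (codeSet e x n)) ∧ ∀ n, ¬ ∀ k, T.r k A ∈ codeSet e x n}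

/-- The set of codes for `G_δ` Ramsey positive sets. -/
def CodesPositive (T : RamseySpace R AR) (e : ℕ × AR → ℕ) : Set (ℕ → Bool) :=
  {x | ¬ RamseyNull T (G T e x)}

/-- `Σ¹₂` subsets of `2^ω`: projections of complements of analytic sets. -/
def IsSigma12 (S : Set (ℕ → Bool)) : Prop :=
  ∃ P : Set ((ℕ → Bool) × (ℕ → ℕ)), AnalyticSet Pᶜ ∧ S = {x | ∃ y, (x, y) ∈ P}

/-- `Σ¹₂`-complete subsets of `2^ω`. -/
def IsSigma12Complete (S : Set (ℕ → Bool)) : Prop :=
  IsSigma12 S ∧ ∀ S' : Set (ℕ → Bool), IsSigma12 S' →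
    ∃ f : (ℕ → Bool) → (ℕ → Bool), Continuous f ∧ ∀ x, x ∈ S' ↔ f x ∈ S

/-! ### Analytic sets are not `Σ¹₂`-complete -/

instance : PolishSpace (ℕ → Bool) := {}

open Pool.Agent.H534R3.NonBorel in
theorem not_complete_of_analytic {S : Set (ℕ → Bool)} (hS : AnalyticSet S) :
    ¬ IsSigma12Complete S := by
  classical
  intro h
  let e : List ℕ ≃ ℕ := Denumerable.eqv (List ℕ)
  -- an analytic non-Borel set
  let P : Set ((ℕ → Bool) × (ℕ → ℕ)) := {p | ∀ n, p.1 (e (br p.2 n)) = true}
  have hP : IsClosed P := by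
    have h1 : P = ⋂ n, ⋂ l : List ℕ, {p | br p.2 n = l → p.1 (e l) = true} := by
      ext p
      simp [P]
    rw [h1]
    refine isClosed_iInter fun n => isClosed_iInter fun l => ?_
    have h2 : {p : (ℕ → Bool) × (ℕ → ℕ) | br p.2 n = l → p.1 (e l) = true} =
        {p : (ℕ → Bool) × (ℕ → ℕ) | br p.2 n ≠ l} ∪
          {p : (ℕ → Bool) × (ℕ → ℕ) | p.1 (e l) = true} := by
      ext p
      simp only [mem_ofPred_eq, mem_union]
      tauto
    rw [h2]
    refine IsClosed.union ?_ ?_
    · have h3 : Continuous fun p : (ℕ → Bool) × (ℕ → ℕ) => fun i : Fin n => p.2 i :=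
        continuous_pi fun i => (continuous_apply (i : ℕ)).comp continuous_snd
      have h4 : {p : (ℕ → Bool) × (ℕ → ℕ) | br p.2 n ≠ l} =
          (fun p : (ℕ → Bool) × (ℕ → ℕ) => fun i : Fin n => p.2 i) ⁻¹'
            {v | List.ofFn v ≠ l} := by
        ext p
        have : br p.2 n = List.ofFn (fun i : Fin n => p.2 i) := by
          apply List.ext_getElem <;> simp [br]
        simp [this]
      rw [h4]
      exact (isClosed_discrete _).preimage h3
    · have h3 : Continuous fun p : (ℕ → Bool) × (ℕ → ℕ) => p.1 (e l) :=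
        (continuous_apply (e l)).comp continuous_fst
      exact (isClosed_discrete {b : Bool | b = true}).preimage h3
  let Q : Set (ℕ → Bool) := {x | ∃ y, (x, y) ∈ P}
  have hQ : AnalyticSet Q := by
    have h1 : Q = Prod.fst '' P := by
      ext x
      simp [Q]
    rw [h1]
    exact (hP.analyticSet).image_of_continuous continuous_fst
  have hQc : IsSigma12 Qᶜ := by
    refine ⟨Prod.fst ⁻¹' Qᶜ, ?_, ?_⟩
    · have h1 : (Prod.fst ⁻¹' Qᶜ : Set ((ℕ → Bool) × (ℕ → ℕ)))ᶜ = Prod.fst ⁻¹' Q := by
        rw [preimage_compl, compl_compl]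
      rw [h1]
      exact hQ.preimage continuous_fst
    · ext x
      simp
  obtain ⟨f, hf, hfS⟩ := h.2 _ hQc
  have h2 : AnalyticSet Qᶜ := by
    have h3 : Qᶜ = f ⁻¹' S := by
      ext x
      exact hfS x
    rw [h3]
    exact hS.preimage hf
  have h3 : MeasurableSet Q := AnalyticSet.measurableSet_of_compl hQ h2
  apply illFounded_not_measurable
  have h4 : {t : List ℕ → Bool | ∃ f : ℕ → ℕ, ∀ n, t (br f n) = true} =
      (fun (t : List ℕ → Bool) (n : ℕ) => t (e.symm n)) ⁻¹' Q := by
    ext t
    simp [Q, P]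
  rw [h4]
  refine measurableSet_preimage ?_ h3
  exact measurable_pi_lambda _ fun n => measurable_pi_apply _

/-! ### The set of codes -/

section Borel

variable (T : RamseySpace R AR) (e : ℕ × AR → ℕ)

theorem measurable_tree (n : ℕ) : MeasurableSet {x : ℕ → Bool | IsTree T (codeSet e x n)} := by
  have := T.countable
  have h : {x : ℕ → Bool | IsTree T (codeSet e x n)} = ⋂ s : AR, ⋂ t : AR, ⋂ _ : Init T.r s t,
      ({x : ℕ → Bool | x (e (n, t)) = true}ᶜ ∪ {x : ℕ → Bool | x (e (n, s)) = true}) := by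
    ext x
    simp only [IsTree, codeSet, mem_ofPred_eq, mem_iInter, mem_union, mem_compl_iff]
    refine forall_congr' fun s => forall_congr' fun t => forall_congr' fun _ => ?_
    tauto
  rw [h]
  refine MeasurableSet.iInter fun s => MeasurableSet.iInter fun t => MeasurableSet.iInter fun _ =>
    ?_
  exact (Pool.Agent.H534R3.NonBorel.mset _ _).compl.union (Pool.Agent.H534R3.NonBorel.mset _ _)

theorem measurable_mem (A : R) : MeasurableSet {x : ℕ → Bool | A ∈ G T e x} := by
  have h : {x : ℕ → Bool | A ∈ G T e x} = (⋂ n, {x : ℕ → Bool | IsTree T (codeSet e x n)}) ∩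
      ⋂ n, ⋃ k, {x : ℕ → Bool | x (e (n, T.r k A)) = true}ᶜ := by
    ext x
    simp [G, codeSet]
  rw [h]
  refine (MeasurableSet.iInter fun n => measurable_tree T e n).inter (MeasurableSet.iInter fun n =>
    MeasurableSet.iUnion fun k => ?_)
  exact (Pool.Agent.H534R3.NonBorel.mset _ _).compl

/-- `[s, B] = {B}` in terms of the finite approximations of `B`. -/
theorem singleton_iff (s : AR) (B : R) (n : ℕ) (hn : T.r n B = s) :
    Nbhd T.le T.r s B = {B} ↔ ∀ m, n ≤ m → ∀ t, (∃ C, T.r m C = T.r m B ∧ T.r (m + 1) C = t) →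
      t ≠ T.r (m + 1) B → ∀ k, ¬ T.lefin t (T.r k B) := by
  classical
  constructor
  · rintro h m hnm t ⟨C, hC1, rfl⟩ hne k hk
    have hex : ∃ k, T.lefin (T.r (m + 1) C) (T.r k B) := ⟨k, hk⟩
    obtain ⟨D, ⟨n', hn'⟩, hDB⟩ := T.A3_one (T.r (m + 1) C) B (Nat.find hex)
      ⟨Nat.find_spec hex, fun j hj => Nat.find_min hex hj⟩ B ⟨⟨_, rfl⟩, T.le_refl B⟩
    obtain ⟨h1, -⟩ := T.A1_eq _ _ _ _ hn'
    subst h1
    have h2 := (T.A1_eq _ _ _ _ hn').2 m (Nat.lt_succ_self m)
    have h3 : T.r n D = T.r n B := by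
      rcases eq_or_lt_of_le hnm with h4 | h4
      · rw [h4, h2, hC1]
      · exact (T.A1_eq _ _ _ _ (h2.trans hC1)).2 n h4
    have h4 : D ∈ Nbhd T.le T.r s B := ⟨⟨n, h3.trans hn⟩, hDB⟩
    rw [h, mem_singleton_iff] at h4
    rw [h4] at hn'
    exact hne hn'.symm
  · intro h
    apply Subset.antisymm
    · rintro C ⟨⟨n', hn'⟩, hCB⟩
      rw [mem_singleton_iff]
      by_contra hne
      have hex := T.A1_ne C B hne
      have h1 := Nat.find_spec hex
      have h2 : ∀ j < Nat.find hex, T.r j C = T.r j B := fun j hj => by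
        by_contra h3
        exact Nat.find_min hex hj h3
      obtain ⟨h3, -⟩ := T.A1_eq C B n' n (hn'.trans hn.symm)
      subst h3
      have h4 : n' < Nat.find hex := by
        by_contra h4
        push Not at h4
        rcases eq_or_lt_of_le h4 with h5 | h5
        · exact h1 (by rw [h5, hn', hn])
        · exact h1 ((T.A1_eq C B n' n' (hn'.trans hn.symm)).2 _ h5)
      obtain ⟨N, hN⟩ : ∃ N, Nat.find hex = N + 1 := ⟨Nat.find hex - 1, by omega⟩
      rw [hN] at h1 h2 h4
      obtain ⟨k, hk⟩ := (T.A2_le C B).1 hCB (N + 1)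
      exact h N (by omega) _ ⟨C, h2 N (by omega), rfl⟩ h1 k hk
    · rintro C hC
      rw [mem_singleton_iff] at hC
      rw [hC]
      exact ⟨⟨n, hn⟩, T.le_refl B⟩

theorem positive_iff
    (H : ∀ s A, (Nbhd T.le T.r s A).Nonempty → ∃ B ∈ Nbhd T.le T.r s A, Nbhd T.le T.r s B = {B})
    (X : Set R) : ¬ RamseyNull T X ↔ ∃ s B, B ∈ X ∧ Nbhd T.le T.r s B = {B} := by
  constructor
  · intro h
    by_contra hcon
    apply h
    intro s A hA
    obtain ⟨B, hB, hB2⟩ := H s A hA
    refine ⟨B, hB, ?_⟩
    rw [hB2]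
    apply Subset.antisymm _ (empty_subset _)
    rintro C ⟨hC, hCX⟩
    rw [mem_singleton_iff] at hC
    exact hcon ⟨s, B, hC ▸ hCX, hB2⟩
  · rintro ⟨s, B, hB, hB2⟩ h
    obtain ⟨C, hC, hC2⟩ := h s B (by rw [hB2]; exact singleton_nonempty B)
    rw [hB2, mem_singleton_iff] at hC
    subst hC
    have : C ∈ Nbhd T.le T.r s C ∩ X := ⟨by rw [hB2]; exact mem_singleton C, hB⟩
    rw [hC2] at this
    exact this

theorem analytic_codes
    (H : ∀ s A, (Nbhd T.le T.r s A).Nonempty → ∃ B ∈ Nbhd T.le T.r s A, Nbhd T.le T.r s B = {B}) :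
    AnalyticSet (CodesPositive T e) := by
  classical
  have := T.countable
  let _ : TopologicalSpace AR := ⊥
  have _ : DiscreteTopology AR := ⟨rfl⟩
  let _ : MeasurableSpace AR := borel AR
  have _ : BorelSpace AR := ⟨rfl⟩
  have _ : PolishSpace (ℕ → AR) := {}
  have hc : ∀ (n : ℕ) (a : AR), MeasurableSet {p : (ℕ → Bool) × (ℕ → AR) | p.2 n = a} := by
    intro n a
    have h : Measurable fun p : (ℕ → Bool) × (ℕ → AR) => p.2 n :=
      (measurable_pi_apply n).comp measurable_snd
    exact h (measurableSet_singleton a)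
  have hx : ∀ (n : ℕ), MeasurableSet {p : (ℕ → Bool) × (ℕ → AR) | p.1 n = true} := by
    intro n
    have h : Measurable fun p : (ℕ → Bool) × (ℕ → AR) => p.1 n :=
      (measurable_pi_apply n).comp measurable_fst
    exact h (measurableSet_singleton true)
  let P : AR → Set ((ℕ → Bool) × (ℕ → AR)) := fun s =>
    Prod.snd ⁻¹' (range fun (A : R) (n : ℕ) => T.r n A) ∩
      ({p | ∃ n, p.2 n = s ∧ ∀ m, n ≤ m → ∀ t, ∀ u, ∀ v, (∃ C, T.r m C = u ∧ T.r (m + 1) C = t) →
        p.2 m = u → p.2 (m + 1) = v → t ≠ v → ∀ k, ∀ w, T.lefin t w → ¬ p.2 k = w} ∩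
      ({p | ∀ n, IsTree T (codeSet e p.1 n)} ∩
      {p | ∀ n, ∃ k, ∃ u, p.2 k = u ∧ ¬ p.1 (e (n, u)) = true}))
  have hP : ∀ s, MeasurableSet (P s) := by
    intro s
    refine MeasurableSet.inter ?_ (MeasurableSet.inter ?_ (MeasurableSet.inter ?_ ?_))
    · exact (IsClosed.preimage continuous_snd T.closed).measurableSet
    · have h : {p : (ℕ → Bool) × (ℕ → AR) | ∃ n, p.2 n = s ∧ ∀ m, n ≤ m → ∀ t, ∀ u, ∀ v,
          (∃ C, T.r m C = u ∧ T.r (m + 1) C = t) →
          p.2 m = u → p.2 (m + 1) = v → t ≠ v → ∀ k, ∀ w, T.lefin t w → ¬ p.2 k = w} =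
          ⋃ n, ({p : (ℕ → Bool) × (ℕ → AR) | p.2 n = s} ∩ ⋂ m, ⋂ _ : n ≤ m, ⋂ t, ⋂ u, ⋂ v,
            ⋂ _ : (∃ C, T.r m C = u ∧ T.r (m + 1) C = t), ⋂ _ : t ≠ v, ⋂ k, ⋂ w,
            ⋂ _ : T.lefin t w,
            ({p : (ℕ → Bool) × (ℕ → AR) | p.2 m = u} ∩
              {p : (ℕ → Bool) × (ℕ → AR) | p.2 (m + 1) = v} ∩
              {p : (ℕ → Bool) × (ℕ → AR) | p.2 k = w})ᶜ) := by
        ext p
        simp only [mem_ofPred_eq, mem_iUnion, mem_inter_iff, mem_iInter, mem_compl_iff]
        refine exists_congr fun n => and_congr_right fun _ => ?_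
        refine forall_congr' fun m => forall_congr' fun _ => forall_congr' fun t =>
          forall_congr' fun u => forall_congr' fun v => forall_congr' fun _ => ?_
        constructor
        · rintro h ht k w hw ⟨⟨h1, h2⟩, h3⟩
          exact h h1 h2 ht k w hw h3
        · rintro h h1 h2 ht k w hw h3
          exact h ht k w hw ⟨⟨h1, h2⟩, h3⟩
      rw [h]
      refine MeasurableSet.iUnion fun n => (hc n s).inter ?_
      refine MeasurableSet.iInter fun m => MeasurableSet.iInter fun _ => MeasurableSet.iInter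
        fun t => MeasurableSet.iInter fun u => MeasurableSet.iInter fun v => MeasurableSet.iInter
        fun _ => MeasurableSet.iInter fun _ => MeasurableSet.iInter fun k => MeasurableSet.iInter
        fun w => MeasurableSet.iInter fun _ => ?_
      exact (((hc m u).inter (hc (m + 1) v)).inter (hc k w)).compl
    · have h : {p : (ℕ → Bool) × (ℕ → AR) | ∀ n, IsTree T (codeSet e p.1 n)} =
          Prod.fst ⁻¹' (⋂ n, {x : ℕ → Bool | IsTree T (codeSet e x n)}) := by
        ext p
        simp
      rw [h]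
      exact measurable_fst (MeasurableSet.iInter fun n => measurable_tree T e n)
    · have h : {p : (ℕ → Bool) × (ℕ → AR) | ∀ n, ∃ k, ∃ u, p.2 k = u ∧ ¬ p.1 (e (n, u)) = true} =
          ⋂ n, ⋃ k, ⋃ u, ({p : (ℕ → Bool) × (ℕ → AR) | p.2 k = u} ∩
            {p : (ℕ → Bool) × (ℕ → AR) | p.1 (e (n, u)) = true}ᶜ) := by
        ext p
        simp only [mem_ofPred_eq, mem_iUnion, mem_inter_iff, mem_iInter, mem_compl_iff]
      rw [h]
      exact MeasurableSet.iInter fun n => MeasurableSet.iUnion fun k => MeasurableSet.iUnion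
        fun u => (hc k u).inter (hx _).compl
  have hmain : CodesPositive T e = ⋃ s, Prod.fst '' (P s) := by
    ext x
    simp only [CodesPositive, mem_ofPred_eq, mem_iUnion]
    rw [positive_iff T H]
    refine exists_congr fun s => ?_
    constructor
    · rintro ⟨B, hB, hB2⟩
      have hBm : B ∈ Nbhd T.le T.r s B := by rw [hB2]; exact mem_singleton B
      obtain ⟨⟨n, hn⟩, -⟩ := hBm
      refine ⟨(x, fun n => T.r n B), ⟨⟨B, rfl⟩, ⟨n, hn, ?_⟩, hB.1, ?_⟩, rfl⟩
      · rintro m hm t u v hC rfl rfl htv k w hw rfl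
        exact (singleton_iff T s B n hn).1 hB2 m hm t hC htv k hw
      · intro n
        have := hB.2 n
        push Not at this
        obtain ⟨k, hk⟩ := this
        exact ⟨k, _, rfl, hk⟩
    · rintro ⟨⟨x', b⟩, ⟨⟨B, rfl⟩, ⟨n, hn, h1⟩, h2, h3⟩, rfl⟩
      refine ⟨B, ⟨h2, ?_⟩, (singleton_iff T s B n hn).2 ?_⟩
      · intro n hcon
        obtain ⟨k, u, rfl, hk⟩ := h3 n
        exact hk (hcon k)
      · intro m hm t hC htv k hk
        exact h1 m hm t _ _ hC rfl rfl htv k _ hk rfl
  rw [hmain]
  exact AnalyticSet.iUnion fun s => (hP s).analyticSet.image_of_continuous continuous_fst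

end Borel

/-! ### The power set of `ω` -/

section Power

/-- `A ∩ n`, as a list of booleans. -/
def res {α : Type} (n : ℕ) (A : ℕ → α) : List α := (List.range n).map A

@[simp] theorem res_length {α : Type} (n : ℕ) (A : ℕ → α) : (res n A).length = n := by simp [res]

theorem res_eq_iff {α : Type} (n m : ℕ) (A B : ℕ → α) :
    res n A = res m B ↔ n = m ∧ ∀ i < n, A i = B i := by
  constructor
  · intro h
    have h1 := congrArg List.length h
    simp only [res_length] at h1
    subst h1
    refine ⟨rfl, fun i hi => ?_⟩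
    have h2 := congrArg (fun l => l[i]?) h
    simpa [res, hi] using h2
  · rintro ⟨rfl, h⟩
    exact List.map_congr_left fun i hi => h i (List.mem_range.1 hi)

theorem res_surj {α : Type} [Inhabited α] (a : List α) : ∃ n, ∃ A : ℕ → α, res n A = a := by
  refine ⟨a.length, fun i => a.getD i default, ?_⟩
  apply List.ext_getElem
  · simp
  · intro i h1 h2
    simp [res, h2]

theorem closed_range_res {α : Type} [Inhabited α] :
    @IsClosed (ℕ → List α) (@Pi.topologicalSpace ℕ (fun _ => List α) fun _ => ⊥)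
    (range fun (A : ℕ → α) (n : ℕ) => res n A) := by
  let _ : TopologicalSpace (List α) := ⊥
  have _ : DiscreteTopology (List α) := ⟨rfl⟩
  have h : (range fun (A : ℕ → α) (n : ℕ) => res n A) =
      ⋂ n, {b : ℕ → List α | ∃ A : ℕ → α, b n = res n A ∧ b (n + 1) = res (n + 1) A} := by
    ext b
    simp only [mem_range, mem_iInter, mem_ofPred_eq]
    constructor
    · rintro ⟨A, rfl⟩ n
      exact ⟨A, rfl, rfl⟩
    · intro h
      choose A hA hA2 using h
      have hcoh : ∀ n i, i < n → A n i = A i i := by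
        intro n
        induction n with
        | zero => intro i hi; omega
        | succ n ih =>
          intro i hi
          have h1 : res (n + 1) (A n) = res (n + 1) (A (n + 1)) := by rw [← hA2 n, hA (n + 1)]
          rw [← (((res_eq_iff _ _ _ _).1 h1).2 i hi)]
          rcases Nat.lt_succ_iff_lt_or_eq.1 hi with h2 | h2
          · exact ih i h2
          · rw [h2]
      refine ⟨fun i => A i i, funext fun n => ?_⟩
      rw [hA n]
      exact (res_eq_iff _ _ _ _).2 ⟨rfl, fun i hi => (hcoh n i hi).symm⟩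
  change IsClosed (range fun (A : ℕ → α) (n : ℕ) => res n A)
  rw [h]
  refine isClosed_iInter fun n => ?_
  have hcont : Continuous fun b : ℕ → List α => (b n, b (n + 1)) :=
    (continuous_apply n).prodMk (continuous_apply (n + 1))
  have h2 : {b : ℕ → List α | ∃ A : ℕ → α, b n = res n A ∧ b (n + 1) = res (n + 1) A} =
      (fun b : ℕ → List α => (b n, b (n + 1))) ⁻¹'
        {q | ∃ A : ℕ → α, q.1 = res n A ∧ q.2 = res (n + 1) A} := rfl
  rw [h2]
  exact (isClosed_discrete _).preimage hcont

theorem eq_false_of_le {b : Bool} (h : b ≤ false) : b = false := by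
  cases b
  · rfl
  · exact absurd h (by decide)

/-- Coordinatewise comparison of lists of booleans of the same length. -/
def bfin (a b : List Bool) : Prop := a.length = b.length ∧ ∀ i, a.getD i false ≤ b.getD i false

theorem bfin_res (n m : ℕ) (A B : ℕ → Bool) :
    bfin (res n A) (res m B) ↔ n = m ∧ ∀ i < n, A i ≤ B i := by
  have hD : ∀ (n i : ℕ) (A : ℕ → Bool), (res n A).getD i false = if i < n then A i else false := by
    intro n i A
    by_cases hi : i < n
    · simp [res, hi]
    · simp [res, hi]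
  simp only [bfin, res_length, hD]
  constructor
  · rintro ⟨rfl, h⟩
    refine ⟨rfl, fun i hi => ?_⟩
    have := h i
    simpa [hi] using this
  · rintro ⟨rfl, h⟩
    refine ⟨rfl, fun i => ?_⟩
    by_cases hi : i < n
    · simpa [hi] using h i hi
    · simp [hi]

/-- The part of `A` below `n`. -/
def cut (n : ℕ) (A : ℕ → Bool) : ℕ → Bool := fun i => if i < n then A i else false

theorem mem_nbhd_power (n : ℕ) (S A B : ℕ → Bool) :
    B ∈ Nbhd (fun A B : ℕ → Bool => ∀ i, A i ≤ B i) res (res n S) A ↔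
      (∀ i < n, B i = S i) ∧ ∀ i, B i ≤ A i := by
  simp only [Nbhd, mem_ofPred_eq, res_eq_iff]
  constructor
  · rintro ⟨⟨m, rfl, h⟩, h2⟩
    exact ⟨h, h2⟩
  · rintro ⟨h, h2⟩
    exact ⟨⟨n, rfl, h⟩, h2⟩

theorem depth_power {n d : ℕ} {S B : ℕ → Bool} (h : IsDepth res bfin (res n S) B d) :
    d = n ∧ ∀ i < n, S i ≤ B i := by
  obtain ⟨h1, h2⟩ := (bfin_res _ _ _ _).1 h.1
  exact ⟨h1.symm, h2⟩

/-- The topological Ramsey space of all subsets of `ω`, with the inclusion order and
`r_n(A) = A ∩ n`. -/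
def powerSpace : RamseySpace (ℕ → Bool) (List Bool) where
  le A B := ∀ i, A i ≤ B i
  r := res
  lefin := bfin
  nonempty := ⟨fun _ => false⟩
  countable := inferInstance
  r_surj := res_surj
  le_refl A i := le_rfl
  le_trans A B C h1 h2 i := (h1 i).trans (h2 i)
  closed := closed_range_res
  A1_zero A B := (res_eq_iff _ _ _ _).2 ⟨rfl, fun i hi => by omega⟩
  A1_ne A B h := by
    by_contra hcon
    push Not at hcon
    exact h (funext fun i => ((res_eq_iff _ _ _ _).1 (hcon (i + 1))).2 i (Nat.lt_succ_self i))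
  A1_eq A B n m h := by
    obtain ⟨rfl, h2⟩ := (res_eq_iff _ _ _ _).1 h
    exact ⟨rfl, fun k hk => (res_eq_iff _ _ _ _).2 ⟨rfl, fun i hi => h2 i (hi.trans hk)⟩⟩
  lefin_refl a := ⟨rfl, fun i => le_rfl⟩
  lefin_trans a b c h1 h2 := ⟨h1.1.trans h2.1, fun i => (h1.2 i).trans (h2.2 i)⟩
  A2_finite b := (List.finite_length_eq Bool b.length).subset fun a ha => ha.1
  A2_le A B := by
    constructor
    · intro h n
      exact ⟨n, (bfin_res _ _ _ _).2 ⟨rfl, fun i _ => h i⟩⟩
    · intro h i
      obtain ⟨m, hm⟩ := h (i + 1)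
      exact ((bfin_res _ _ _ _).1 hm).2 i (Nat.lt_succ_self i)
  A2_init := by
    rintro a b c ⟨A, m, n, hmn, rfl, rfl⟩ hbc
    obtain ⟨n', C, rfl⟩ := res_surj c
    obtain ⟨rfl, h⟩ := (bfin_res _ _ _ _).1 hbc
    exact ⟨res m C, ⟨C, m, n, hmn, rfl, rfl⟩,
      (bfin_res _ _ _ _).2 ⟨rfl, fun i hi => h i (by omega)⟩⟩
  A3_one := by
    intro a B d hd A hA
    obtain ⟨n, S, rfl⟩ := res_surj a
    obtain ⟨rfl, h⟩ := depth_power hd
    obtain ⟨h1, h2⟩ := (mem_nbhd_power _ _ _ _).1 hA
    refine ⟨cut d S, (mem_nbhd_power _ _ _ _).2 ⟨fun i hi => by simp [cut, hi], fun i => ?_⟩⟩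
    by_cases hi : i < d
    · simpa [cut, hi, h1 i hi] using h i hi
    · simp [cut, hi]
  A3_two := by
    rintro a A B hAB ⟨C, hC⟩
    obtain ⟨n, S, rfl⟩ := res_surj a
    obtain ⟨h1, h2⟩ := (mem_nbhd_power _ _ _ _).1 hC
    refine ⟨n, ⟨(bfin_res _ _ _ _).2 ⟨rfl, fun i hi => ?_⟩, fun m hm hcon => ?_⟩,
      fun i => if i < n then B i else A i, (mem_nbhd_power _ _ _ _).2 ⟨fun i hi => by simp [hi],
        fun i => ?_⟩, ⟨C, (mem_nbhd_power _ _ _ _).2 ⟨h1, fun i => ?_⟩⟩, fun D hD => ?_⟩
    · rw [← h1 i hi]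
      exact (h2 i).trans (hAB i)
    · have := ((bfin_res _ _ _ _).1 hcon).1
      omega
    · split_ifs
      · exact le_rfl
      · exact hAB i
    · split_ifs
      · exact (h2 i).trans (hAB i)
      · exact h2 i
    · obtain ⟨h3, h4⟩ := (mem_nbhd_power _ _ _ _).1 hD
      refine (mem_nbhd_power _ _ _ _).2 ⟨h3, fun i => ?_⟩
      by_cases hi : i < n
      · rw [h3 i hi, ← h1 i hi]
        exact h2 i
      · have := h4 i
        simpa [hi] using this
  A4 := by
    intro a B d hd O
    obtain ⟨n, S, rfl⟩ := res_surj a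
    obtain ⟨rfl, h⟩ := depth_power hd
    refine ⟨cut d B, (mem_nbhd_power _ _ _ _).2 ⟨fun i hi => by simp [cut, hi], fun i => ?_⟩, ?_⟩
    · by_cases hi : i < d
      · simp [cut, hi]
      · simp [cut, hi]
    · have key : ∀ C ∈ Nbhd (fun A B : ℕ → Bool => ∀ i, A i ≤ B i) res (res d S) (cut d B),
          ∀ k, res k C = res d S → res (k + 1) C = res (d + 1) (cut d S) := by
        intro C hC k hk
        obtain ⟨h1, h2⟩ := (mem_nbhd_power _ _ _ _).1 hC
        obtain ⟨rfl, h3⟩ := (res_eq_iff _ _ _ _).1 hk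
        refine (res_eq_iff _ _ _ _).2 ⟨rfl, fun i hi => ?_⟩
        by_cases hi2 : i < k
        · simp [cut, hi2, h3 i hi2]
        · have := h2 i
          simpa [cut, hi2] using eq_false_of_le (by simpa [cut, hi2] using this)
      by_cases hO : res (d + 1) (cut d S) ∈ O
      · left
        intro C hC k hk
        rw [key C hC k hk]
        exact hO
      · right
        intro C hC k hk
        rw [key C hC k hk]
        exact hO

theorem power_null_iff (X : Set (ℕ → Bool)) :
    ¬ RamseyNull powerSpace X ↔ ∃ A ∈ X, {i | A i = true}.Finite := by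
  have hfin : ∀ A : ℕ → Bool, {i | A i = true}.Finite ↔ ∃ n, ∀ i, n ≤ i → A i = false := by
    intro A
    constructor
    · intro h
      obtain ⟨N, hN⟩ := h.bddAbove
      refine ⟨N + 1, fun i hi => ?_⟩
      by_contra hcon
      have := hN (show i ∈ {i | A i = true} by simpa using hcon)
      omega
    · rintro ⟨n, hn⟩
      refine (finite_Iio n).subset fun i hi => ?_
      by_contra hcon
      rw [mem_Iio, not_lt] at hcon
      rw [mem_ofPred_eq, hn i hcon] at hi
      exact absurd hi (by simp)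
  constructor
  · intro h
    by_contra hcon
    apply h
    rintro s A ⟨C, hC⟩
    obtain ⟨n, S, rfl⟩ := res_surj s
    obtain ⟨h1, h2⟩ := (mem_nbhd_power _ _ _ _).1 hC
    have hcut : ∀ D ∈ Nbhd powerSpace.le powerSpace.r (res n S) (cut n S), D = cut n S := by
      intro D hD
      obtain ⟨h3, h4⟩ := (mem_nbhd_power _ _ _ _).1 hD
      funext i
      by_cases hi : i < n
      · simp [cut, hi, h3 i hi]
      · have := h4 i
        simpa [cut, hi] using eq_false_of_le (by simpa [cut, hi] using this)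
    refine ⟨cut n S, (mem_nbhd_power _ _ _ _).2 ⟨fun i hi => by simp [cut, hi], fun i => ?_⟩, ?_⟩
    · by_cases hi : i < n
      · have := h2 i
        rw [h1 i hi] at this
        simpa [cut, hi] using this
      · simp [cut, hi]
    · apply Subset.antisymm _ (empty_subset _)
      rintro D ⟨hD, hDX⟩
      rw [hcut D hD] at hDX
      refine hcon ⟨_, hDX, (hfin _).2 ⟨n, fun i hi => ?_⟩⟩
      simp [cut, Nat.not_lt.2 hi]
  · rintro ⟨A, hA, hfA⟩ h
    obtain ⟨n, hn⟩ := (hfin A).1 hfA
    have hsing : ∀ D ∈ Nbhd powerSpace.le powerSpace.r (res n A) A, D = A := by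
      intro D hD
      obtain ⟨h3, h4⟩ := (mem_nbhd_power _ _ _ _).1 hD
      funext i
      by_cases hi : i < n
      · exact h3 i hi
      · have := h4 i
        rw [hn i (Nat.not_lt.1 hi)] at this ⊢
        exact eq_false_of_le this
    have hself : A ∈ Nbhd powerSpace.le powerSpace.r (res n A) A :=
      (mem_nbhd_power _ _ _ _).2 ⟨fun i _ => rfl, fun i => le_rfl⟩
    obtain ⟨B, hB, hB2⟩ := h (res n A) A ⟨A, hself⟩
    rw [hsing B hB] at hB2
    have : A ∈ Nbhd powerSpace.le powerSpace.r (res n A) A ∩ X := ⟨hself, hA⟩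
    rw [hB2] at this
    exact this

theorem power_codes_borel (e : ℕ × List Bool → ℕ) : MeasurableSet (CodesPositive powerSpace e) := by
  have h : CodesPositive powerSpace e = ⋃ n, ⋃ s : List Bool,
      {x | (fun i => if i < n then s.getD i false else false) ∈ G powerSpace e x} := by
    ext x
    simp only [CodesPositive, mem_ofPred_eq, power_null_iff, mem_iUnion]
    constructor
    · rintro ⟨A, hA, hfA⟩
      obtain ⟨N, hN⟩ := hfA.bddAbove
      refine ⟨N + 1, res (N + 1) A, ?_⟩
      convert hA using 1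
      funext i
      by_cases hi : i < N + 1
      · simp [res, hi]
      · have : A i = false := by
          by_contra hcon
          have := hN (show i ∈ {i | A i = true} by simpa using hcon)
          omega
        simp [hi, this]
    · rintro ⟨n, s, hs⟩
      refine ⟨_, hs, (finite_Iio n).subset fun i hi => ?_⟩
      by_contra hcon
      rw [mem_Iio] at hcon
      simp [hcon] at hi
  rw [h]
  exact MeasurableSet.iUnion fun n => MeasurableSet.iUnion fun s => measurable_mem powerSpace e _

end Power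

/-! ### The Baire space with equality -/

section Baire

/-- The topological Ramsey space of all sequences of natural numbers, ordered by equality. -/
def baireSpace : RamseySpace (ℕ → ℕ) (List ℕ) where
  le A B := A = B
  r := res
  lefin a b := a = b
  nonempty := ⟨fun _ => 0⟩
  countable := inferInstance
  r_surj := res_surj
  le_refl A := rfl
  le_trans A B C h1 h2 := h1.trans h2
  closed := closed_range_res
  A1_zero A B := (res_eq_iff _ _ _ _).2 ⟨rfl, fun i hi => by omega⟩
  A1_ne A B h := by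
    by_contra hcon
    push Not at hcon
    exact h (funext fun i => ((res_eq_iff _ _ _ _).1 (hcon (i + 1))).2 i (Nat.lt_succ_self i))
  A1_eq A B n m h := by
    obtain ⟨rfl, h2⟩ := (res_eq_iff _ _ _ _).1 h
    exact ⟨rfl, fun k hk => (res_eq_iff _ _ _ _).2 ⟨rfl, fun i hi => h2 i (hi.trans hk)⟩⟩
  lefin_refl a := rfl
  lefin_trans a b c h1 h2 := h1.trans h2
  A2_finite b := finite_singleton b
  A2_le A B := by
    constructor
    · rintro rfl n
      exact ⟨n, rfl⟩
    · intro h
      funext i
      obtain ⟨m, hm⟩ := h (i + 1)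
      exact ((res_eq_iff _ _ _ _).1 hm).2 i (Nat.lt_succ_self i)
  A2_init := by
    rintro a b c h rfl
    exact ⟨a, h, rfl⟩
  A3_one := by
    rintro a B d hd A ⟨-, rfl⟩
    exact ⟨A, ⟨d, hd.1.symm⟩, rfl⟩
  A3_two := by
    rintro a A B rfl ⟨C, ⟨n, hn⟩, rfl⟩
    refine ⟨n, ⟨hn.symm, fun m hm hcon => ?_⟩, C, ⟨⟨n, rfl⟩, rfl⟩, ⟨C, ⟨n, hn⟩, rfl⟩,
      Subset.rfl⟩
    have := ((res_eq_iff _ _ _ _).1 (hn.trans hcon)).1
    omega
  A4 := by
    intro a B d hd O
    refine ⟨B, ⟨⟨d, rfl⟩, rfl⟩, ?_⟩
    have key : ∀ C ∈ Nbhd (fun A B : ℕ → ℕ => A = B) res a B,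
          ∀ k, res k C = a → res (k + 1) C = res (d + 1) B := by
      rintro C ⟨-, rfl⟩ k hk
      have := ((res_eq_iff _ _ _ _).1 (hk.trans hd.1)).1
      rw [this]
    by_cases hO : res (d + 1) B ∈ O
    · left
      intro C hC k hk
      rw [key C hC k hk]
      exact hO
    · right
      intro C hC k hk
      rw [key C hC k hk]
      exact hO

theorem baire_nbhd (s : List ℕ) (A B : ℕ → ℕ)
    (hB : B ∈ Nbhd baireSpace.le baireSpace.r s A) : Nbhd baireSpace.le baireSpace.r s B = {B} := by
  obtain ⟨⟨n, hn⟩, -⟩ := hB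
  apply Subset.antisymm
  · rintro C ⟨-, hC⟩
    exact hC
  · rintro C hC
    rw [mem_singleton_iff] at hC
    rw [hC]
    exact ⟨⟨n, hn⟩, rfl⟩

theorem baire_positive (X : Set (ℕ → ℕ)) : ¬ RamseyNull baireSpace X ↔ X.Nonempty := by
  rw [positive_iff baireSpace (fun s A ⟨B, hB⟩ => ⟨B, hB, baire_nbhd s A B hB⟩)]
  constructor
  · rintro ⟨s, B, hB, -⟩
    exact ⟨B, hB⟩
  · rintro ⟨B, hB⟩
    exact ⟨res 0 B, B, hB, baire_nbhd _ B B ⟨⟨0, rfl⟩, rfl⟩⟩

theorem take_res (n k : ℕ) (h : n ≤ k) (A : ℕ → ℕ) : (res k A).take n = res n A := by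
  simp [res, ← List.map_take, List.take_range, h]

open Pool.Agent.H534R3.NonBorel in
theorem baire_codes_not_borel (e : ℕ × List ℕ → ℕ) (he : Function.Injective e) :
    ¬ MeasurableSet (CodesPositive baireSpace e) := by
  classical
  intro hM
  apply illFounded_not_measurable
  -- the code of the complement of the tree `t`
  let g : (List ℕ → Bool) → (ℕ → Bool) := fun t m =>
    if h : ∃ q, e q = m then
      decide (h.choose.2.length < h.choose.1 ∨ t (h.choose.2.take h.choose.1) = false)
    else false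
  have hg : Measurable g := by
    refine measurable_pi_lambda _ fun m => ?_
    by_cases h : ∃ q, e q = m
    · have h1 : (fun t => g t m) = fun t : List ℕ → Bool =>
          decide (h.choose.2.length < h.choose.1 ∨ t (h.choose.2.take h.choose.1) = false) := by
        funext t
        simp only [g, dif_pos h]
      rw [h1]
      have h2 : Measurable fun b : Bool =>
          decide (h.choose.2.length < h.choose.1 ∨ b = false) := measurable_of_countable _
      exact h2.comp (measurable_pi_apply _)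
    · have h1 : (fun t => g t m) = fun _ => false := by
        funext t
        simp only [g, dif_neg h]
      rw [h1]
      exact measurable_const
  have hgc : ∀ t n, codeSet e (g t) n = {a | a.length < n ∨ t (a.take n) = false} := by
    intro t n
    ext a
    have h : ∃ q, e q = e (n, a) := ⟨_, rfl⟩
    have h1 : h.choose = (n, a) := he h.choose_spec
    have h2 : g t (e (n, a)) = decide (a.length < n ∨ t (a.take n) = false) := by
      simp only [g, dif_pos h]
      rw [h1]
    simp only [codeSet, mem_ofPred_eq]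
    rw [h2, decide_eq_true_eq]
  have hpre : {t : List ℕ → Bool | ∃ f : ℕ → ℕ, ∀ n, t (br f n) = true} =
      g ⁻¹' CodesPositive baireSpace e := by
    ext t
    simp only [mem_ofPred_eq, mem_preimage, CodesPositive, baire_positive]
    have htree : ∀ n, IsTree baireSpace (codeSet e (g t) n) := by
      rintro n s u ⟨A, m, k, hmk, rfl, rfl⟩ hu
      rw [hgc] at hu ⊢
      simp only [baireSpace, mem_ofPred_eq, res_length] at hu ⊢
      rcases hu with hu | hu
      · left
        omega
      · rcases lt_or_ge m n with h | h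
        · exact Or.inl h
        · right
          rw [take_res _ _ h]
          rwa [take_res _ _ (h.trans hmk)] at hu
    refine exists_congr fun f => ?_
    simp only [G, mem_ofPred_eq, hgc]
    constructor
    · intro h
      refine ⟨fun n => by rw [← hgc]; exact htree n, fun n hcon => ?_⟩
      have h1 := hcon n
      simp only [baireSpace, res_length, take_res _ _ le_rfl, lt_irrefl, false_or] at h1
      have h2 := h n
      change t (res n f) = true at h2
      rw [h1] at h2
      exact absurd h2 (by simp)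
    · rintro ⟨-, h⟩ n
      have h1 := h n
      push Not at h1
      obtain ⟨k, hk⟩ := h1
      simp only [baireSpace, res_length, Bool.not_eq_false] at hk
      rw [take_res _ _ hk.1] at hk
      exact hk.2
  rw [hpre]
  exact hg hM

end Baire

/-- (1) For each topological Ramsey space in which every nonempty `[s, A]` contains some `B` with
`[s, B] = {B}`, the set of codes for `G_δ` Ramsey positive sets is analytic, and so it is not
`Σ¹₂`-complete.

(2) The power set of `ω`, with the inclusion order and `r_n(A) = A ∩ n`, is a topological Ramsey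
space in which a set is Ramsey positive if and only if it contains a finite subset of `ω`; its set
of codes for `G_δ` Ramsey positive sets is Borel and not `Σ¹₂`-complete.

(3) The Baire space, with the order `A ≤ B ↔ A = B` and `r_n(A)` the restriction of `A` to `n`, is
a topological Ramsey space whose set of codes for `G_δ` Ramsey positive sets is analytic, not Borel
and not `Σ¹₂`-complete.

The codes are read with any injective coding `e` of `ω × AR` by natural numbers. -/
theorem result :
    (∀ (R AR : Type) (T : RamseySpace R AR) (e : ℕ × AR → ℕ), Function.Injective e →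
      (∀ s A, (Nbhd T.le T.r s A).Nonempty →
        ∃ B ∈ Nbhd T.le T.r s A, Nbhd T.le T.r s B = {B}) →
      AnalyticSet (CodesPositive T e) ∧ ¬ IsSigma12Complete (CodesPositive T e)) ∧
    (∃ T : RamseySpace (ℕ → Bool) (List Bool),
      T.le = (fun A B => ∀ i, A i ≤ B i) ∧ T.r = (fun n A => (List.range n).map A) ∧
      (∀ X, ¬ RamseyNull T X ↔ ∃ A ∈ X, {i | A i = true}.Finite) ∧
      ∀ e : ℕ × List Bool → ℕ, Function.Injective e →
        MeasurableSet (CodesPositive T e) ∧ ¬ IsSigma12Complete (CodesPositive T e)) ∧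
    (∃ T : RamseySpace (ℕ → ℕ) (List ℕ),
      T.le = (fun A B => A = B) ∧ T.r = (fun n A => (List.range n).map A) ∧
      ∀ e : ℕ × List ℕ → ℕ, Function.Injective e →
        AnalyticSet (CodesPositive T e) ∧ ¬ MeasurableSet (CodesPositive T e) ∧
          ¬ IsSigma12Complete (CodesPositive T e)) := by
  refine ⟨fun R AR T e _ H => ?_, ⟨powerSpace, rfl, rfl, power_null_iff, fun e _ => ?_⟩,
    ⟨baireSpace, rfl, rfl, fun e he => ?_⟩⟩
  · exact ⟨analytic_codes T e H, not_complete_of_analytic (analytic_codes T e H)⟩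
  · exact ⟨power_codes_borel e, not_complete_of_analytic (power_codes_borel e).analyticSet⟩
  · have h := analytic_codes baireSpace e (fun s A ⟨B, hB⟩ => ⟨B, hB, baire_nbhd s A B hB⟩)
    exact ⟨h, baire_codes_not_borel e he, not_complete_of_analytic h⟩

end Pool.Agent.Results.MP_b89b7d_lc.NotSigma12Complete
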